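import Pool.Agent.R945.MK.Defs
import Pool.Agent.R945.MK.A1
import Pool.Agent.R945.MK.A3
import Pool.Agent.R945.MK.A4
import Pool.Agent.R945.MK.C
import Pool.Agent.R945.MK.D
import Pool.Agent.R945.MK.E
import Pool.Agent.R945.MK.F1
import Pool.Agent.R945.MK.F2
import Pool.Agent.R945.MK.F3
import Pool.Agent.R945.MK.G

/-!
# MP_07db0e_nt: the Borel summation formula for the second moment of the question mark function

Full positive answer. All definitions are repeated here in the namespace of this file: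

* `Q n` : the rational functions `Q_n` (as functions of a real variable);
* `Lam` : the function `Λ(t) = ∑ Q_n'(-1) t^n / n!`;
* `gauss`, `pq`, `qm` : the Gauss map, the partial quotients, and the Minkowski question mark function;
* `IsQm F` : the Stieltjes function `F` is `0` on the negative axis, `?(x)` on `[0,1]`, and `1` to the right of `1`.
-/

set_option autoImplicit false

open MeasureTheory Filter

namespace Pool.Agent.Results.MP_07db0e_nt.Full

/-- The rational functions `Q_n` (as functions on the reals):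
`Q_0(z) = -1/(2z)`, `Q_n(z) = (1/2) ∑_{j<n} (1/j!) Q_{n-j-1}^{(j)}(-1) (z^j - 1/z^{j+2})`. -/
noncomputable def Q : ℕ → ℝ → ℝ
  | 0 => fun z => -1 / (2 * z)
  | n + 1 => fun z => (1 / 2) * ∑ j : Fin (n + 1),
      (1 / (Nat.factorial j : ℝ)) * iteratedDeriv j (Q (n - j)) (-1) * (z ^ (j : ℕ) - 1 / z ^ ((j : ℕ) + 2))
  termination_by n => n
  decreasing_by omega

/-- The function `Λ(t) = ∑ Q_n'(-1) t^n / n!`. -/
noncomputable def Lam (t : ℝ) : ℝ := ∑' n : ℕ, deriv (Q n) (-1) / (Nat.factorial n : ℝ) * t ^ n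

/-- the Gauss map (with value `0` at `0`) -/
noncomputable def gauss (x : ℝ) : ℝ := Int.fract x⁻¹

/-- the `k`-th partial quotient (`k = 0, 1, ...`) of `x ∈ [0,1]`; meaningful if `gauss^[k] x ≠ 0` -/
noncomputable def pq (x : ℝ) (k : ℕ) : ℕ := ⌊(gauss^[k] x)⁻¹⌋₊

/-- The Minkowski question mark function on `[0,1]`:
`?(x) = 2^{1-a₁} - 2^{1-(a₁+a₂)} + 2^{1-(a₁+a₂+a₃)} - ⋯` where `x = [0; a₁, a₂, ...]`; the sum stops
when the continued fraction stops, that is, when an iterate of the Gauss map is `0`. -/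
noncomputable def qm (x : ℝ) : ℝ :=
  ∑' k : ℕ, if gauss^[k] x = 0 then 0
    else (-1) ^ k * (2 * (1 / 2) ^ (∑ i ∈ Finset.range (k + 1), pq x i))

/-- `F` is the distribution function `?` : it is `0` for `x < 0`, `?(x)` for `0 ≤ x ≤ 1` and `1` for `x > 1`.
(So `F.measure` is the Lebesgue-Stieltjes measure `d?(x)`.) -/
def IsQm (F : StieltjesFunction ℝ) : Prop :=
  (∀ x < 0, F x = 0) ∧ (∀ x ∈ Set.Icc (0 : ℝ) 1, F x = qm x) ∧ (∀ x, 1 < x → F x = 1)

/-! ### comparison with the definitions of the helper files -/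

lemma Q_eq (n : ℕ) : Q n = Pool.Agent.R945.MK.Q n := by
  induction n using Nat.strong_induction_on with
  | _ n ih =>
    cases n with
    | zero => rw [Q, Pool.Agent.R945.MK.Q]
    | succ n =>
      rw [Q, Pool.Agent.R945.MK.Q]
      funext z
      congr 1
      refine Finset.sum_congr rfl fun j _ => ?_
      rw [ih (n - j) (by omega)]

lemma Lam_eq : Lam = Pool.Agent.R945.MK.Lam := by
  funext t
  simp only [Lam, Pool.Agent.R945.MK.Lam, Q_eq]

lemma gauss_eq : gauss = Pool.Agent.R945.MK.gauss := rfl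

lemma qm_eq : qm = Pool.Agent.R945.MK.qm := rfl

/-! ### the boundary inequalities -/

lemma hb (y : ℝ) (h : ℂ) (m : ℕ) (hy : 0 ≤ y) (h1 : 13 / 20 ≤ h.re) (h2 : h.im ≤ 87 / 100)
    (hm : 1 ≤ m) :
    0 ≤ (Pool.Agent.R945.MK.u (1 + y * Complex.I) h m).re +
        7 / 20 * ‖Pool.Agent.R945.MK.u (1 + y * Complex.I) h m‖ ^ 2 ∧
      0 ≤ (Pool.Agent.R945.MK.u (1 + y * Complex.I) h m).im +
        87 / 100 * ‖Pool.Agent.R945.MK.u (1 + y * Complex.I) h m‖ ^ 2 := by
  rcases hm.eq_or_lt with rfl | hm'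
  · exact Pool.Agent.R945.MK.m_one y h hy h1 h2
  · rcases hy.eq_or_lt with rfl | hy0
    · exact Pool.Agent.R945.MK.y_zero h m h1 h2 hm
    · rcases le_total y (9 / 20) with h9 | h9
      · exact Pool.Agent.R945.MK.small y h m hy0 h9 h1 h2 hm'
      · exact Pool.Agent.R945.MK.large y h m h9 h1 h2 hm'

lemma hn (y : ℝ) (h : ℂ) (m : ℕ) (hy : 0 ≤ y) (hy' : y ≤ 1 / 50) (h1 : 13 / 20 ≤ h.re)
    (h2 : h.im ≤ 87 / 100) (hm : 1 ≤ m) :
    0 ≤ (Pool.Agent.R945.MK.u (1 + y * Complex.I) h m).re +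
        6 / 25 * ‖Pool.Agent.R945.MK.u (1 + y * Complex.I) h m‖ ^ 2 := by
  rcases hm.eq_or_lt with rfl | hm'
  · exact Pool.Agent.R945.MK.m_one_near y h hy hy' h1 h2
  · rcases hy.eq_or_lt with rfl | hy0
    · exact Pool.Agent.R945.MK.y_zero_near h m h1 h2 hm
    · exact Pool.Agent.R945.MK.small_near y h m hy0 hy' h1 h2 hm'

/-! ### the main theorem -/

lemma main (F : StieltjesFunction ℝ) (hF : IsQm F) :
    Tendsto (fun T : ℝ => ∫ t in (0 : ℝ)..T, Lam t * Real.exp (-t)) atTop
      (nhds (∫ x, x ^ 2 ∂F.measure)) := by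
  obtain ⟨h0, h1, h2⟩ := hF
  have hreg := Pool.Agent.R945.MK.region hb
  have hnear := Pool.Agent.R945.MK.region_near hb (1 / 50) (by norm_num) hn
  obtain ⟨hd, hbd, C1, hC1⟩ := Pool.Agent.R945.MK.iterates hreg (1 / 50) (by norm_num) hnear
  obtain ⟨a, ha1, ha2, ha3⟩ := Pool.Agent.R945.MK.coeffs
  have hβ := Pool.Agent.R945.MK.beta_lim F h0 h1 h2
  have hcon := Pool.Agent.R945.MK.conclusion (max 4 C1)
    (fun n => ((deriv (Pool.Agent.R945.MK.Q n) (-1) : ℝ) : ℂ)) a
    (fun N n => (ha1 N n).trans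
      (mul_le_mul_of_nonneg_right (le_max_left _ _) (by positivity))) ha2
    (fun N p => Pool.Agent.R945.MK.av p⁻¹ (fun ξ => ξ ^ 2) N 0)
    (fun N => Pool.Agent.R945.MK.av 1 (fun ξ => ξ ^ 2) N 0) _ hβ hd
    (fun N p hp => (hbd N p hp).trans (le_max_left _ _))
    (fun N p _ hp => ha3 N p hp)
    (fun N p hp => (hC1 N p hp).trans
      (mul_le_mul_of_nonneg_right (le_max_right _ _) (norm_nonneg _)))
    (Pool.Agent.R945.MK.borel _)
  have hre := (Complex.continuous_re.tendsto _).comp hcon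
  rw [Complex.ofReal_re] at hre
  refine hre.congr fun T => ?_
  simp only [Function.comp_apply]
  have e : ∀ t : ℝ, (∑' n : ℕ, ((deriv (Pool.Agent.R945.MK.Q n) (-1) : ℝ) : ℂ) / (n.factorial : ℂ) *
      (t : ℂ) ^ n) * (Real.exp (-t) : ℂ) = ((Lam t * Real.exp (-t) : ℝ) : ℂ) := by
    intro t
    rw [Lam_eq, Pool.Agent.R945.MK.Lam, Complex.ofReal_mul, Complex.ofReal_tsum]
    push_cast
    rfl
  simp only [e]
  rw [intervalIntegral.integral_ofReal, Complex.ofReal_re]

/-- **Main theorem** (MP_07db0e_nt, Q1, positive answer).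
(1) the power series of `Λ` converges absolutely for every complex `t` (so `Λ` is entire);
(2) there is exactly one distribution function `F` on the real line extending `?`;
(3) the improper integral of `Λ(t) e^{-t}` over `(0, ∞)` converges to `∫_0^1 x^2 d?(x)` (all proper
integrals over `[0, T]` exist since the integrand is continuous). -/
theorem result :
    (∀ t : ℂ, Summable (fun n : ℕ => ‖((deriv (Q n) (-1) : ℝ) : ℂ) / (n.factorial : ℂ) * t ^ n‖)) ∧
    (∃! F : StieltjesFunction ℝ, IsQm F) ∧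
    ∀ F : StieltjesFunction ℝ, IsQm F →
      IsProbabilityMeasure F.measure ∧
      F.measure (Set.Icc 0 1)ᶜ = 0 ∧
      Continuous (fun t : ℝ => Lam t * Real.exp (-t)) ∧
      Tendsto (fun T : ℝ => ∫ t in (0 : ℝ)..T, Lam t * Real.exp (-t)) atTop
        (nhds (∫ x in Set.Icc (0 : ℝ) 1, x ^ 2 ∂F.measure)) := by
  have hbd : ∀ n, |deriv (Q n) (-1)| ≤ 4 ^ n := fun n => by
    rw [Q_eq]; exact Pool.Agent.R945.MK.coeff_bound n
  have hbound : ∀ (t : ℂ) (n : ℕ), ‖((deriv (Q n) (-1) : ℝ) : ℂ) / (n.factorial : ℂ) * t ^ n‖ ≤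
      (4 * ‖t‖) ^ n / n.factorial := by
    intro t n
    rw [norm_mul, norm_div, norm_pow, Complex.norm_natCast, Complex.norm_real, Real.norm_eq_abs,
      mul_pow, div_mul_eq_mul_div]
    exact div_le_div_of_nonneg_right (mul_le_mul_of_nonneg_right (hbd n) (by positivity))
      (by positivity)
  refine ⟨fun t => ?_, ?_, ?_⟩
  · exact Summable.of_nonneg_of_le (fun n => norm_nonneg _) (hbound t)
      (Real.summable_pow_div_factorial _)
  · obtain ⟨F, hF0, hF1, hF2⟩ := Pool.Agent.R945.MK.qm_stieltjes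
    refine ⟨F, ⟨hF0, hF1, hF2⟩, ?_⟩
    rintro G ⟨hG0, hG1, hG2⟩
    ext x
    rcases lt_or_ge x 0 with hx | hx
    · rw [hG0 x hx, hF0 x hx]
    · rcases le_or_gt x 1 with hx1 | hx1
      · rw [hG1 x ⟨hx, hx1⟩, hF1 x ⟨hx, hx1⟩]
        rfl
      · rw [hG2 x hx1, hF2 x hx1]
  · intro F hF
    obtain ⟨hp, hs, -⟩ := Pool.Agent.R945.MK.qm_inv F hF.1 hF.2.1 hF.2.2
    refine ⟨hp, hs, ?_, ?_⟩
    · have hc : Continuous Lam := by
        rw [continuous_iff_continuousAt]
        intro t0
        have h1 : ContinuousOn Lam {t : ℝ | |t| < |t0| + 1} := by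
          refine continuousOn_tsum (u := fun n : ℕ => (4 * (|t0| + 1)) ^ n / n.factorial) ?_
            (Real.summable_pow_div_factorial _) ?_
          · intro n
            fun_prop
          · intro n t ht
            have h3 : |t| ≤ |t0| + 1 := le_of_lt ht
            rw [norm_mul, norm_div, norm_pow, Real.norm_eq_abs, Real.norm_eq_abs, Real.norm_eq_abs,
              mul_pow, Nat.abs_cast, div_mul_eq_mul_div]
            refine div_le_div_of_nonneg_right (mul_le_mul (hbd n)
              (pow_le_pow_left₀ (abs_nonneg t) h3 n) (by positivity) (by positivity)) (by positivity)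
        refine h1.continuousAt (IsOpen.mem_nhds ?_ ?_)
        · exact isOpen_lt continuous_abs continuous_const
        · simp
      fun_prop
    · have hm := main F hF
      have hae : ∀ᵐ x ∂F.measure, x ∈ Set.Icc (0 : ℝ) 1 := by
        rw [MeasureTheory.ae_iff]; exact hs
      rw [MeasureTheory.Measure.restrict_eq_self_of_ae_mem hae]
      exact hm

end Pool.Agent.Results.MP_07db0e_nt.Full
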